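import Pool.Agent.Lib.MP_3a7344_al.Main

set_option autoImplicit false

namespace Pool.Agent.Lib.MP_3a7344_al.H84

open Set Filter
open scoped Classical

variable {G : Type} [Group G]

/-- The second half of `no_fast`: the output of the Baire step is contradictory. -/
theorem core [Countable G] [Infinite G] {Y X : Set G} {K : ℕ} (hYfin : Y.Finite) (hYX : Y ⊆ X)
    (hXinf : X.Infinite) (hXgen : Subgroup.closure X = ⊤)
    (hK : ∀ Z, Y ⊆ Z → Z ⊆ X → Z.Infinite → Subgroup.closure Z = ⊤ → Ball K Z = univ) :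
    False := by
  by_cases hfg : ∃ Y' : Set G, Y'.Finite ∧ Y ⊆ Y' ∧ Y' ⊆ X ∧ Subgroup.closure Y' = ⊤
  · obtain ⟨Y', hY'fin, hYY', hY'X, hY'gen⟩ := hfg
    have hne : (Filter.cofinite ⊓ 𝓟 X).NeBot := Filter.cofinite_inf_principal_neBot_iff.2 hXinf
    set q : Ultrafilter G := @Ultrafilter.of _ (Filter.cofinite ⊓ 𝓟 X) hne with hq
    have hqX : X ∈ q := Ultrafilter.of_le _ (Filter.mem_inf_of_right (Filter.mem_principal_self X))
    have hqT : ∀ T : Finset G, (↑T : Set G)ᶜ ∈ q := fun T =>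
      Ultrafilter.of_le _ (Filter.mem_inf_of_left T.finite_toSet.compl_mem_cofinite)
    obtain ⟨z, T, hT0, hTs, hTP, h, hh⟩ := avoid K hY'fin (ι := Unit)
      (fun _ => q.map (fun x => fun _ : Unit => x))
      (by
        apply (Set.finite_range (fun S : Finset Unit =>
          (q.map (fun x => fun _ : Unit => x)).map (fun z => S.image z))).subset
        rintro _ ⟨n, S, _, rfl⟩
        exact ⟨S, rfl⟩)
      (fun _ T z => z () ∈ X ∧ z () ∉ T)
      (by
        intro n T
        have h1 : ∀ᶠ x in (q : Filter G), x ∈ X ∧ x ∉ T := by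
          filter_upwards [hqX, hqT T] with x hx1 hx2
          exact ⟨hx1, hx2⟩
        exact h1)
    have hTX : ∀ n, (↑(T n) : Set G) ⊆ X := by
      intro n
      induction n with
      | zero => rw [hT0]; simp
      | succ n ih =>
        rw [hTs n]
        intro x hx
        rw [Finset.coe_union, Set.mem_union] at hx
        rcases hx with hx | hx
        · exact ih hx
        · simp only [Finset.univ_unique, Finset.image_singleton, Finset.coe_singleton,
            Set.mem_singleton_iff] at hx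
          rw [hx]; exact (hTP n).1
    have hcard : ∀ n, n ≤ (T n).card := by
      intro n
      induction n with
      | zero => exact Nat.zero_le _
      | succ n ih =>
        rw [hTs n]
        have h1 : T n ⊂ T n ∪ Finset.univ.image (z n) := by
          rw [Finset.ssubset_iff_of_subset Finset.subset_union_left]
          exact ⟨z n (), Finset.mem_union_right _ (Finset.mem_image_of_mem _ (Finset.mem_univ _)),
            (hTP n).2⟩
        have := Finset.card_lt_card h1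
        omega
    set U : Set G := ⋃ n, (↑(T n) : Set G) with hU
    have hUinf : U.Infinite := by
      intro hfin
      have hsub : (↑(T (U.ncard + 1)) : Set G) ⊆ U :=
        Set.subset_iUnion (fun n => (↑(T n) : Set G)) (U.ncard + 1)
      have h1 := Set.ncard_le_ncard hsub hfin
      rw [Set.ncard_coe_finset] at h1
      have h2 := hcard (U.ncard + 1)
      omega
    have hZ := hK (U ∪ Y') (hYY'.trans subset_union_right)
      (union_subset (Set.iUnion_subset hTX) hY'X) (hUinf.mono subset_union_left)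
      (by rw [eq_top_iff, ← hY'gen]; exact Subgroup.closure_mono subset_union_right)
    apply hh
    rw [hZ]; trivial
  · have hinf : ∀ Z, Y ⊆ Z → Z ⊆ X → Subgroup.closure Z = ⊤ → Z.Infinite := by
      intro Z h1 h2 h3 h4
      exact hfg ⟨Z, h4, h1, h2, h3⟩
    have hfast' : ∀ Z, Y ⊆ Z → Z ⊆ X → Subgroup.closure Z = ⊤ → Ball K Z = univ :=
      fun Z h1 h2 h3 => hK Z h1 h2 (hinf Z h1 h2 h3) h3
    have hYne : Subgroup.closure Y ≠ ⊤ := fun h => hfg ⟨Y, hYfin, subset_rfl, hYX, h⟩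
    obtain ⟨m, E, q, hEX, hEq, hgood⟩ := exists_Q hYX hXgen hYne hfast'
    set 𝒬 : Set (Ultrafilter G) := Set.range q ∪ (fun y => (pure y : Ultrafilter G)) '' Y with h𝒬
    have h𝒬fin : 𝒬.Finite := (Set.finite_range q).union (hYfin.image _)
    have h𝒬X : ∀ Q ∈ 𝒬, X ∈ Q := by
      rintro Q (⟨i, rfl⟩ | ⟨y, hy, rfl⟩)
      · exact Filter.mem_of_superset (hEq i) (hEX i)
      · exact hYX hy
    obtain ⟨r, c, hc𝒬, hc, hgen⟩ := exists_r (K + 1) 𝒬 h𝒬fin (by
      intro A hA d
      have h1 := hgood (fun i => A (q i)) (fun i => hA _ (Or.inl ⟨i, rfl⟩))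
      have h2 : Y ∪ ⋃ i, (A (q i) ∩ E i) ⊆ X :=
        union_subset hYX (iUnion_subset (fun i => inter_subset_right.trans (hEX i)))
      have h3 := hfast' _ subset_union_left h2 h1
      have h4 : d ∈ Ball K (Y ∪ ⋃ i, (A (q i) ∩ E i)) := by rw [h3]; trivial
      obtain ⟨y, hy1, hy2⟩ := tuple_of_ball (hinf _ subset_union_left h2 h1).nonempty h4
      refine ⟨y, ?_, hy2⟩
      intro a
      rcases hy1 a with h5 | h5
      · exact ⟨pure (y a), Or.inr ⟨y a, h5, rfl⟩, hA (pure (y a)) (Or.inr ⟨y a, h5, rfl⟩)⟩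
      · obtain ⟨i, hi⟩ := Set.mem_iUnion.1 h5
        exact ⟨q i, Or.inl ⟨i, rfl⟩, hi.1⟩)
    have hcfin : (Set.range c).Finite := by
      apply (Set.Finite.pi' (fun _ : Fin (K + 1) => h𝒬fin)).subset
      rintro _ ⟨d, rfl⟩
      exact fun a => hc𝒬 d a
    have hX : ∀ d, ∀ᶠ y in (r d : Filter (Fin (K + 1) → G)), ∀ a, y a ∈ X := by
      intro d
      rw [Filter.eventually_all]
      intro a
      have h1 : X ∈ (r d).map (fun y => y a) := by rw [hc d a]; exact h𝒬X _ (hc𝒬 d a)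
      exact h1
    obtain ⟨ι, hι, ρ, hρ1, hρ2, hρ3⟩ := exists_unif r c hc hcfin hgen X hX K
    obtain ⟨g, hg⟩ := exists_surjective_nat G
    obtain ⟨z, T, hT0, hTs, hTP, h, hh⟩ := avoid K hYfin (fun n => ρ (g n))
      (finite_types (hρ1.mono (Nat.le_succ K)) g)
      (fun n _ z => g n ∈ Subgroup.closure (Set.range z) ∧ ∀ i, z i ∈ X)
      (fun n _ => (hρ2 (g n)).and (hρ3 (g n)))
    have hTX : ∀ n, (↑(T n) : Set G) ⊆ X := by
      intro n
      induction n with
      | zero => rw [hT0]; simp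
      | succ n ih =>
        rw [hTs n]
        intro x hx
        rw [Finset.coe_union, Set.mem_union] at hx
        rcases hx with hx | hx
        · exact ih hx
        · rw [Finset.mem_coe, Finset.mem_image] at hx
          obtain ⟨i, _, rfl⟩ := hx
          exact (hTP n).2 i
    set U : Set G := ⋃ n, (↑(T n) : Set G) with hU
    have hUgen : Subgroup.closure U = ⊤ := by
      rw [eq_top_iff]
      intro x _
      obtain ⟨n, rfl⟩ := hg x
      refine Subgroup.closure_mono ?_ (hTP n).1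
      rintro _ ⟨i, rfl⟩
      refine Set.mem_iUnion.2 ⟨n + 1, ?_⟩
      rw [hTs n, Finset.coe_union]
      right
      rw [Finset.mem_coe]
      exact Finset.mem_image_of_mem _ (Finset.mem_univ _)
    have hZ := hfast' (U ∪ Y) subset_union_right
      (union_subset (Set.iUnion_subset hTX) hYX)
      (by rw [eq_top_iff, ← hUgen]; exact Subgroup.closure_mono subset_union_left)
    apply hh
    rw [hZ]; trivial


/-- The Baire step relative to an infinite generating set `X₀` and a finite part `F` of it. -/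
theorem rel_baire [Countable G] {F X₀ : Set G} (hF : F.Finite) (hFX : F ⊆ X₀)
    (hXi : X₀.Infinite) (hXg : Subgroup.closure X₀ = ⊤)
    (hfast : ∀ X : Set G, F ⊆ X → X ⊆ X₀ → Subgroup.closure X = ⊤ → X.Infinite →
      ∃ n : ℕ, Ball n X = univ) :
    ∃ (Y X : Set G) (K : ℕ), Y.Finite ∧ F ⊆ Y ∧ Y ⊆ X ∧ X ⊆ X₀ ∧ X.Infinite ∧
      Subgroup.closure X = ⊤ ∧
      ∀ Z, Y ⊆ Z → Z ⊆ X → Z.Infinite → Subgroup.closure Z = ⊤ → Ball K Z = univ := by
  by_contra hcon
  push Not at hcon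
  obtain ⟨g, hg⟩ := exists_surjective_nat G
  have key : ∀ (n : ℕ) (s : {p : Set G × Set G // p.1.Finite ∧ F ⊆ p.1 ∧ p.1 ⊆ p.2 ∧ p.2 ⊆ X₀ ∧
      p.2.Infinite ∧ Subgroup.closure p.2 = ⊤}), ∃ s' : {p : Set G × Set G // p.1.Finite ∧
      F ⊆ p.1 ∧ p.1 ⊆ p.2 ∧ p.2 ⊆ X₀ ∧ p.2.Infinite ∧ Subgroup.closure p.2 = ⊤},
      s'.1.2 ⊆ s.1.2 ∧ s.1.1 ⊆ s'.1.1 ∧
      g n ∈ Subgroup.closure s'.1.1 ∧ s.1.1.ncard < s'.1.1.ncard ∧ Ball n s'.1.2 ≠ univ := by
    rintro n ⟨⟨Y, X⟩, h1, hFY, h2, hX0, h3, h4⟩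
    obtain ⟨Z, hYZ, hZX, hZi, hZg, hZb⟩ := hcon Y X n h1 hFY h2 hX0 h3 h4
    have hgn : g n ∈ Subgroup.closure Z := by rw [hZg]; trivial
    obtain ⟨l, hl, hlp⟩ := list_of_mem_closure hgn
    set E : Set G := {x | x ∈ Z ∧ (x ∈ l ∨ x⁻¹ ∈ l)} with hE
    have hEfin : E.Finite := by
      apply Set.Finite.subset ((l.toFinset ∪ (l.map (fun x => x⁻¹)).toFinset).finite_toSet)
      rintro x ⟨_, hx | hx⟩
      · simp [hx]
      · simp only [Finset.coe_union, List.coe_toFinset, Set.mem_union]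
        right
        show x ∈ l.map (fun x => x⁻¹)
        rw [List.mem_map]
        exact ⟨x⁻¹, hx, inv_inv x⟩
    have hEg : g n ∈ Subgroup.closure E := by
      rw [← hlp]
      apply Subgroup.list_prod_mem
      intro x hx
      rcases hl x hx with h | h
      · exact Subgroup.subset_closure ⟨h, Or.inl hx⟩
      · apply (Subgroup.inv_mem_iff _).1
        exact Subgroup.subset_closure ⟨h, Or.inr (by rw [inv_inv]; exact hx)⟩
    obtain ⟨x, hxZ, hxY⟩ := (hZi.sdiff h1).nonempty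
    have hfin : (Y ∪ E ∪ {x}).Finite := (h1.union hEfin).union (Set.finite_singleton x)
    refine ⟨⟨⟨Y ∪ E ∪ {x}, Z⟩, hfin, ?_, ?_, hZX.trans hX0, hZi, hZg⟩, hZX, ?_, ?_, ?_, hZb⟩
    · exact hFY.trans (fun y hy => Or.inl (Or.inl hy))
    · apply union_subset (union_subset hYZ (fun y hy => hy.1))
      rw [Set.singleton_subset_iff]; exact hxZ
    · exact fun y hy => Or.inl (Or.inl hy)
    · exact Subgroup.closure_mono (fun y hy => Or.inl (Or.inr hy)) hEg
    · apply Set.ncard_lt_ncard _ hfin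
      have hYs : Y ⊆ Y ∪ E ∪ {x} := fun y hy => Or.inl (Or.inl hy)
      exact (Set.ssubset_iff_of_subset hYs).2 ⟨x, Or.inr rfl, hxY⟩
  choose next hn1 hn2 hn3 hn4 hn5 using key
  let s0 : {p : Set G × Set G // p.1.Finite ∧ F ⊆ p.1 ∧ p.1 ⊆ p.2 ∧ p.2 ⊆ X₀ ∧
      p.2.Infinite ∧ Subgroup.closure p.2 = ⊤} :=
    ⟨⟨F, X₀⟩, hF, subset_rfl, hFX, subset_rfl, hXi, hXg⟩
  let seq : ℕ → {p : Set G × Set G // p.1.Finite ∧ F ⊆ p.1 ∧ p.1 ⊆ p.2 ∧ p.2 ⊆ X₀ ∧
      p.2.Infinite ∧ Subgroup.closure p.2 = ⊤} := fun n => Nat.rec s0 (fun n s => next n s) n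
  have hseq : ∀ n, seq (n + 1) = next n (seq n) := fun n => rfl
  have hY : ∀ n m, n ≤ m → (seq n).1.1 ⊆ (seq m).1.1 := by
    intro n m hnm
    induction hnm with
    | refl => exact subset_rfl
    | step _ ih => exact ih.trans (hn2 _ _)
  have hX : ∀ n m, n ≤ m → (seq m).1.2 ⊆ (seq n).1.2 := by
    intro n m hnm
    induction hnm with
    | refl => exact subset_rfl
    | step _ ih => exact (hn1 _ _).trans ih
  set U : Set G := ⋃ n, (seq n).1.1 with hU
  have hUX : ∀ n, U ⊆ (seq n).1.2 := by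
    intro n x hx
    obtain ⟨m, hm⟩ := Set.mem_iUnion.1 hx
    rcases le_total n m with h | h
    · exact hX n m h ((seq m).2.2.2.1 hm)
    · exact (seq n).2.2.2.1 (hY m n h hm)
  have hUgen : Subgroup.closure U = ⊤ := by
    rw [eq_top_iff]
    intro x _
    obtain ⟨n, rfl⟩ := hg x
    exact Subgroup.closure_mono (Set.subset_iUnion (fun n => (seq n).1.1) (n + 1))
      (hn3 n (seq n))
  have hcard : ∀ n, n ≤ (seq n).1.1.ncard := by
    intro n
    induction n with
    | zero => exact Nat.zero_le _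
    | succ n ih =>
      have := hn4 n (seq n)
      rw [hseq]
      omega
  have hUinf : U.Infinite := by
    intro hfin
    have h1 := hcard (U.ncard + 1)
    have hsub : ∀ N, (seq N).1.1 ⊆ U := fun N => Set.subset_iUnion (fun n => (seq n).1.1) N
    have h2 : (seq (U.ncard + 1)).1.1.ncard ≤ U.ncard :=
      Set.ncard_le_ncard (hsub (U.ncard + 1)) hfin
    omega
  obtain ⟨n, hn⟩ := hfast U (Set.subset_iUnion (fun n => (seq n).1.1) 0)
    ((hUX 0).trans (seq 0).2.2.2.2.1) hUgen hUinf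
  apply hn5 n (seq n)
  rw [Set.eq_univ_iff_forall]
  intro x
  have hx : x ∈ Ball n U := by rw [hn]; trivial
  exact Ball_mono (hUX (n + 1)) hx

/-- Every infinite generating set contains an infinite slow one, with a prescribed finite part. -/
theorem slow_sub [Countable G] [Infinite G] {F X₀ : Set G} (hF : F.Finite) (hFX : F ⊆ X₀)
    (hXi : X₀.Infinite) (hXg : Subgroup.closure X₀ = ⊤) :
    ∃ Z : Set G, F ⊆ Z ∧ Z ⊆ X₀ ∧ Z.Infinite ∧ Subgroup.closure Z = ⊤ ∧
      ∀ n : ℕ, Ball n Z ≠ univ := by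
  by_contra hcon
  have hfast : ∀ X : Set G, F ⊆ X → X ⊆ X₀ → Subgroup.closure X = ⊤ → X.Infinite →
      ∃ n : ℕ, Ball n X = univ := by
    intro X h1 h2 h3 h4
    by_contra h5
    push Not at h5
    exact hcon ⟨X, h1, h2, h4, h3, h5⟩
  obtain ⟨Y, X, K, hYfin, _, hYX, _, hXinf, hXgen, hK⟩ := rel_baire hF hFX hXi hXg hfast
  exact core hYfin hYX hXinf hXgen hK

end Pool.Agent.Lib.MP_3a7344_al.H84
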